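import Mathlib
import Pool.Agent.N718.GC.Stm2

/-!
# `p`-adic points move with the base point (part WLOCP of the project GC of helper718)
-/

set_option autoImplicit false
set_option linter.all false

namespace Pool.Agent.N687.GC

open Finset Polynomial Pool.Agent.N718.DC Pool.Agent.N718.GC

variable {p : ℕ} [hp : Fact p.Prime]

lemma add_le (x y : ℚ_[p]) (B : ℝ) (hx : ‖x‖ ≤ B) (hy : ‖y‖ ≤ B) : ‖x + y‖ ≤ B :=
  (Padic.nonarchimedean x y).trans (max_le hx hy)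

lemma pow_sub (x y : ℚ_[p]) (R : ℝ) (hR : 1 ≤ R) (hx : ‖x‖ ≤ R) (hy : ‖y‖ ≤ R) (j : ℕ) :
    ‖x ^ j - y ^ j‖ ≤ ‖x - y‖ * R ^ j := by
  have hR0 : 0 ≤ R := by linarith
  induction j with
  | zero => simp
  | succ j ih =>
    have e : x ^ (j + 1) - y ^ (j + 1) = x * (x ^ j - y ^ j) + (x - y) * y ^ j := by ring
    rw [e]
    apply add_le
    · rw [norm_mul]
      calc ‖x‖ * ‖x ^ j - y ^ j‖ ≤ R * (‖x - y‖ * R ^ j) :=
            mul_le_mul hx ih (norm_nonneg _) hR0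
        _ = ‖x - y‖ * R ^ (j + 1) := by ring
    · rw [norm_mul, norm_pow]
      apply mul_le_mul_of_nonneg_left _ (norm_nonneg _)
      calc ‖y‖ ^ j ≤ R ^ j := pow_le_pow_left₀ (norm_nonneg _) hy j
        _ ≤ R ^ (j + 1) := pow_le_pow_right₀ hR (Nat.le_succ j)

lemma sum_le {ι : Type} (s : Finset ι) (f : ι → ℚ_[p]) (B : ℝ) (hB : 0 ≤ B)
    (h : ∀ i ∈ s, ‖f i‖ ≤ B) : ‖∑ i ∈ s, f i‖ ≤ B := by
  classical
  induction s using Finset.induction_on with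
  | empty => simpa using hB
  | insert a s ha ih =>
    rw [Finset.sum_insert ha]
    exact add_le _ _ _ (h a (mem_insert_self _ _)) (ih fun i hi => h i (mem_insert_of_mem hi))

lemma fmv_sub {e : ℕ} (c : Fin (e + 2) → ℤ) (x y : ℚ_[p]) (R : ℝ) (hR : 1 ≤ R) (hx : ‖x‖ ≤ R)
    (hy : ‖y‖ ≤ R) : ‖fmv c 1 x - fmv c 1 y‖ ≤ ‖x - y‖ * R ^ (e + 1) := by
  have hR0 : 0 ≤ R := by linarith
  unfold fmv fm
  rw [← Finset.sum_sub_distrib]
  apply sum_le _ _ _ (by positivity)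
  intro j _
  have e1 : (c j : ℚ_[p]) * 1 ^ (e + 1 - (j : ℕ)) * x ^ (j : ℕ) -
      (c j : ℚ_[p]) * 1 ^ (e + 1 - (j : ℕ)) * y ^ (j : ℕ) =
      (c j : ℚ_[p]) * (x ^ (j : ℕ) - y ^ (j : ℕ)) := by
    simp only [one_pow]; ring
  rw [e1, norm_mul]
  have h1 : ‖(c j : ℚ_[p])‖ ≤ 1 := Padic.norm_int_le_one (c j)
  calc ‖(c j : ℚ_[p])‖ * ‖x ^ (j : ℕ) - y ^ (j : ℕ)‖ ≤ 1 * (‖x - y‖ * R ^ (j : ℕ)) :=
        mul_le_mul h1 (pow_sub x y R hR hx hy j) (norm_nonneg _) zero_le_one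
    _ = ‖x - y‖ * R ^ (j : ℕ) := one_mul _
    _ ≤ ‖x - y‖ * R ^ (e + 1) := by
        apply mul_le_mul_of_nonneg_left _ (norm_nonneg _)
        exact pow_le_pow_right₀ hR (by have := j.isLt; omega)

lemma prod_sub_one {ι : Type} (s : Finset ι) (g : ι → ℚ_[p]) (η : ℝ) (h0 : 0 ≤ η) (h1 : η ≤ 1)
    (h : ∀ i ∈ s, ‖g i - 1‖ ≤ η) : ‖∏ i ∈ s, g i - 1‖ ≤ η := by
  classical
  induction s using Finset.induction_on with
  | empty => simpa using h0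
  | insert a s ha ih =>
    rw [Finset.prod_insert ha]
    have ih' := ih fun i hi => h i (mem_insert_of_mem hi)
    have e : g a * ∏ i ∈ s, g i - 1 = (g a - 1) * ∏ i ∈ s, g i + (∏ i ∈ s, g i - 1) := by ring
    rw [e]
    apply add_le _ _ _ _ ih'
    have hP : ‖∏ i ∈ s, g i‖ ≤ 1 := by
      have e2 : ∏ i ∈ s, g i = (∏ i ∈ s, g i - 1) + 1 := by ring
      rw [e2]
      exact add_le _ _ _ (ih'.trans h1) (by simp)
    rw [norm_mul]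
    calc ‖g a - 1‖ * ‖∏ i ∈ s, g i‖ ≤ η * 1 :=
          mul_le_mul (h a (mem_insert_self _ _)) hP (norm_nonneg _) h0
      _ = η := mul_one _

lemma exists_root (u : ℚ_[p]) (κ : ℝ) (hκ : κ < 1) (hu : ‖u‖ ≤ ‖(2 : ℚ_[p])‖ ^ 2 * κ) :
    ∃ θ : ℚ_[p], θ ^ 2 = 1 + u ∧ ‖θ - 1‖ ≤ κ := by
  have h20 : (0 : ℝ) < ‖(2 : ℚ_[p])‖ := norm_pos_iff.mpr two_ne_zero
  have h21 : ‖(2 : ℚ_[p])‖ ≤ 1 := by
    have := Padic.norm_int_le_one (p := p) 2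
    simpa using this
  have hul : ‖u‖ < ‖(2 : ℚ_[p])‖ ^ 2 := by
    calc ‖u‖ ≤ ‖(2 : ℚ_[p])‖ ^ 2 * κ := hu
      _ < ‖(2 : ℚ_[p])‖ ^ 2 * 1 := mul_lt_mul_of_pos_left hκ (by positivity)
      _ = _ := mul_one _
  have hu1 : ‖u‖ ≤ 1 := by
    apply hul.le.trans
    exact pow_le_one₀ h20.le h21
  let U : ℤ_[p] := ⟨u, hu1⟩
  have hF := hensels_lemma (p := p) (F := (X ^ 2 - C (1 + U) : ℤ_[p][X])) (a := (1 : ℤ_[p]))
    (by
      have e1 : (aeval (1 : ℤ_[p])) (X ^ 2 - C (1 + U) : ℤ_[p][X]) = -U := by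
        simp
      have e2 : (aeval (1 : ℤ_[p])) (derivative (X ^ 2 - C (1 + U) : ℤ_[p][X])) = 2 := by
        simp
        norm_num
      rw [e1, e2, norm_neg]
      have e3 : ‖(2 : ℤ_[p])‖ = ‖(2 : ℚ_[p])‖ := by
        rw [PadicInt.norm_def]; rfl
      rw [e3, PadicInt.norm_def]
      exact hul)
  obtain ⟨z, hz, hz1, -, -⟩ := hF
  have e2 : (aeval (1 : ℤ_[p])) (derivative (X ^ 2 - C (1 + U) : ℤ_[p][X])) = 2 := by
    simp
    norm_num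
  rw [e2] at hz1
  have hz' : z ^ 2 - (1 + U) = 0 := by simpa using hz
  have e3 : ‖(2 : ℤ_[p])‖ = ‖(2 : ℚ_[p])‖ := by
    rw [PadicInt.norm_def]; rfl
  have hzq : (z : ℚ_[p]) ^ 2 = 1 + u := by
    have h5 : z ^ 2 = 1 + U := sub_eq_zero.mp hz'
    have h6 := congrArg (fun w : ℤ_[p] => (w : ℚ_[p])) h5
    simpa using h6
  have hz2 : ‖(z : ℚ_[p]) - 1‖ < ‖(2 : ℚ_[p])‖ := by
    rw [← e3]
    have e4 : ‖(z : ℚ_[p]) - 1‖ = ‖z - 1‖ := by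
      rw [PadicInt.norm_def]; simp
    rw [e4]; exact hz1
  refine ⟨z, hzq, ?_⟩
  have hz3 : ‖(z : ℚ_[p]) + 1‖ = ‖(2 : ℚ_[p])‖ := by
    have e5 : (z : ℚ_[p]) + 1 = ((z : ℚ_[p]) - 1) + 2 := by ring
    rw [e5, Padic.add_eq_max_of_ne hz2.ne, max_eq_right hz2.le]
  have h7 : ‖(z : ℚ_[p]) - 1‖ * ‖(2 : ℚ_[p])‖ = ‖u‖ := by
    rw [← hz3, ← norm_mul]
    congr 1
    have : ((z : ℚ_[p]) - 1) * ((z : ℚ_[p]) + 1) = (z : ℚ_[p]) ^ 2 - 1 := by ring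
    rw [this, hzq]; ring
  have h8 : ‖(z : ℚ_[p]) - 1‖ * ‖(2 : ℚ_[p])‖ ≤ κ * ‖(2 : ℚ_[p])‖ * ‖(2 : ℚ_[p])‖ := by
    rw [h7]; linarith [hu]
  have hκ0 : 0 ≤ κ := by
    by_contra hc
    push Not at hc
    have : ‖(2 : ℚ_[p])‖ ^ 2 * κ < 0 := mul_neg_of_pos_of_neg (by positivity) hc
    linarith [norm_nonneg u]
  have h9 := le_of_mul_le_mul_right h8 h20
  calc ‖(z : ℚ_[p]) - 1‖ ≤ κ * ‖(2 : ℚ_[p])‖ := h9
    _ ≤ κ * 1 := mul_le_mul_of_nonneg_left h21 hκ0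
    _ = κ := mul_one _

theorem wlocp_ : S_WLOCP := by
  intro r m E e hE m₀ hm₀ p hp ε hε
  have h20 : (0 : ℝ) < ‖(2 : ℚ_[p])‖ := norm_pos_iff.mpr two_ne_zero
  have h21 : ‖(2 : ℚ_[p])‖ ≤ 1 := by
    have := Padic.norm_int_le_one (p := p) 2
    simpa using this
  have hR : (1 : ℝ) ≤ m₀ := by exact_mod_cast hm₀
  have hR0 : (0 : ℝ) < m₀ := by linarith
  set κ : ℝ := min ε 1 / 2 with hκd
  have hκ0 : 0 < κ := by have : 0 < min ε 1 := lt_min hε one_pos; positivity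
  have hκε : κ ≤ ε := by have : min ε 1 ≤ ε := min_le_left _ _; linarith
  have hκ1 : κ < 1 := by have : min ε 1 ≤ 1 := min_le_right _ _; linarith
  set D : ℕ := ∑ i, e i + 2 with hD
  set η : ℝ := ‖(2 : ℚ_[p])‖ ^ 2 * κ with hη
  have hη0 : 0 < η := by positivity
  have hη1 : η < 1 := by
    have : ‖(2 : ℚ_[p])‖ ^ 2 ≤ 1 := pow_le_one₀ h20.le h21
    calc η ≤ 1 * κ := mul_le_mul_of_nonneg_right this hκ0.le
      _ < 1 := by linarith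
  refine ⟨η / (m₀ : ℝ) ^ D, by positivity, ?_⟩
  intro c T t hT hfT hTt Y Z hY
  have hmD : (1 : ℝ) ≤ (m₀ : ℝ) ^ D := one_le_pow₀ hR
  have hδ1 : η / (m₀ : ℝ) ^ D ≤ 1 := by
    rw [div_le_one (by positivity)]; linarith
  have ht : ‖t‖ ≤ m₀ := by
    have e1 : t = T + -(T - t) := by ring
    rw [e1]
    apply add_le _ _ _ hT
    rw [norm_neg]; linarith
  obtain ⟨hne, heq⟩ := hY
  have hq : ∀ i, ‖fmv (c i) 1 t / fmv (c i) 1 T - 1‖ ≤ η := by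
    intro i
    have hi : fmv (c i) 1 T ≠ 0 := hne i
    have e1 : fmv (c i) 1 t / fmv (c i) 1 T - 1 = (fmv (c i) 1 t - fmv (c i) 1 T) / fmv (c i) 1 T := by
      field_simp
    rw [e1, norm_div]
    have hpos : 0 < ‖fmv (c i) 1 T‖ := norm_pos_iff.mpr hi
    rw [div_le_iff₀ hpos]
    have h1 := fmv_sub (c i) t T (m₀ : ℝ) hR ht hT
    have h2 : ‖t - T‖ ≤ η / (m₀ : ℝ) ^ D := by rw [norm_sub_rev]; exact hTt
    have h3 : (m₀ : ℝ) ^ (e i + 1) * m₀ ≤ (m₀ : ℝ) ^ D := by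
      rw [← pow_succ]
      apply pow_le_pow_right₀ hR
      have : e i ≤ ∑ i, e i := Finset.single_le_sum (f := e) (fun _ _ => Nat.zero_le _) (mem_univ i)
      omega
    have h4 : 1 / (m₀ : ℝ) ≤ ‖fmv (c i) 1 T‖ := hfT i
    calc ‖fmv (c i) 1 t - fmv (c i) 1 T‖ ≤ ‖t - T‖ * (m₀ : ℝ) ^ (e i + 1) := h1
      _ ≤ η / (m₀ : ℝ) ^ D * (m₀ : ℝ) ^ (e i + 1) := mul_le_mul_of_nonneg_right h2 (by positivity)
      _ ≤ η * (1 / m₀) := by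
          rw [div_mul_eq_mul_div, div_le_iff₀ (by positivity)]
          have : η * (1 / (m₀ : ℝ)) * (m₀ : ℝ) ^ D = η * ((m₀ : ℝ) ^ D / m₀) := by ring
          rw [this]
          apply mul_le_mul_of_nonneg_left _ hη0.le
          rw [le_div_iff₀ hR0]
          exact h3
      _ ≤ η * ‖fmv (c i) 1 T‖ := mul_le_mul_of_nonneg_left h4 hη0.le
  have hnt : ∀ i, fmv (c i) 1 t ≠ 0 := by
    intro i h0
    have := hq i
    rw [h0, zero_div, zero_sub, norm_neg, norm_one] at this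
    linarith
  have hP : ∀ j, ∃ θ : ℚ_[p], θ ^ 2 = ∏ i ∈ E.I j, (fmv (c i) 1 t / fmv (c i) 1 T) ∧ ‖θ - 1‖ ≤ κ := by
    intro j
    have h1 := prod_sub_one (E.I j) (fun i => fmv (c i) 1 t / fmv (c i) 1 T) η hη0.le hη1.le
      (fun i _ => hq i)
    obtain ⟨θ, h2, h3⟩ := exists_root _ κ hκ1 h1
    exact ⟨θ, by rw [h2]; ring, h3⟩
  choose θ hθ hθ1 using hP
  refine ⟨fun j => θ j * Y j, fun j => θ j * Z j, ⟨hnt, ?_⟩, ?_⟩
  · intro j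
    have e1 : (θ j * Y j) ^ 2 - (E.a j : ℚ_[p]) * (θ j * Z j) ^ 2 =
        θ j ^ 2 * (Y j ^ 2 - (E.a j : ℚ_[p]) * Z j ^ 2) := by ring
    show (θ j * Y j) ^ 2 - (E.a j : ℚ_[p]) * (θ j * Z j) ^ 2 = rhs E c j 1 t
    rw [e1, heq j, hθ j]
    unfold rhs
    rw [Finset.prod_div_distrib]
    have hn : ∏ i ∈ E.I j, fmv (c i) 1 T ≠ 0 := Finset.prod_ne_zero_iff.mpr fun i _ => hne i
    field_simp
  · intro j
    have h1 : ‖1 - θ j‖ ≤ ε := by rw [norm_sub_rev]; exact (hθ1 j).trans hκε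
    constructor
    · have e1 : Y j - θ j * Y j = (1 - θ j) * Y j := by ring
      show ‖Y j - θ j * Y j‖ ≤ _
      rw [e1, norm_mul]
      exact mul_le_mul h1 (le_max_left _ _) (norm_nonneg _) hε.le
    · have e1 : Z j - θ j * Z j = (1 - θ j) * Z j := by ring
      show ‖Z j - θ j * Z j‖ ≤ _
      rw [e1, norm_mul]
      exact mul_le_mul h1 (le_max_right _ _) (norm_nonneg _) hε.le

end Pool.Agent.N687.GC
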